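import Pool.Agent.Helper72.WC.Final

/-!
# MP_c8f8f3_co: the second order term of the threshold bias is at least of order `√k`

Client chooses at random; one potential function of degree four derandomises the choice.
-/

set_option autoImplicit false

namespace Pool.Agent.Helper40.WC

open Finset Pool.Agent.Helper72.WC

variable {n : ℕ}

/-! ### Incidences -/

/-- The number of pairs of `S` at `v`. -/
def inc (S : Finset (Sym2 (Fin n))) (v : Fin n) : ℕ := (S.filter (fun e => v ∈ e)).card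

theorem card_inc (e : Sym2 (Fin n)) (he : ¬ e.IsDiag) :
    (univ.filter (fun v : Fin n => v ∈ e)).card = 2 := by
  induction e with
  | _ x y =>
    have hxy : x ≠ y := by simpa using he
    have h : (univ.filter (fun v : Fin n => v ∈ s(x, y))) = {x, y} := by
      ext v; simp
    rw [h, card_pair hxy]

theorem inc_eq_sum (B : Finset (Sym2 (Fin n))) (v : Fin n) :
    inc B v = ∑ e ∈ B, if v ∈ e then 1 else 0 := by
  unfold inc
  rw [card_filter]

theorem sum_inc {B : Finset (Sym2 (Fin n))} (hB : ∀ e ∈ B, ¬ e.IsDiag) :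
    ∑ v, inc B v = 2 * B.card := by
  simp_rw [inc_eq_sum]
  rw [sum_comm]
  have h : ∀ e ∈ B, ∑ v : Fin n, (if v ∈ e then 1 else 0) = 2 := by
    intro e he
    rw [← card_filter]
    exact card_inc e (hB e he)
  rw [sum_congr rfl h]
  simp [mul_comm]

theorem common_le {e f : Sym2 (Fin n)} (he : ¬ e.IsDiag) :
    (univ.filter (fun v : Fin n => v ∈ e ∧ v ∈ f)).card ≤ 1 + if f = e then 1 else 0 := by
  by_cases hfe : f = e
  · subst hfe
    simp only [and_self, if_true]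
    rw [card_inc f he]
  · simp only [if_neg hfe, add_zero]
    rw [card_le_one]
    intro v hv w hw
    simp only [mem_filter, mem_univ, true_and] at hv hw
    by_contra hvw
    have h1 : e = s(v, w) := (Sym2.mem_and_mem_iff hvw).1 ⟨hv.1, hw.1⟩
    have h2 : f = s(v, w) := (Sym2.mem_and_mem_iff hvw).1 ⟨hv.2, hw.2⟩
    exact hfe (h2.trans h1.symm)

theorem sum_inc_sq {B : Finset (Sym2 (Fin n))} (hB : ∀ e ∈ B, ¬ e.IsDiag) :
    ∑ v, inc B v ^ 2 ≤ B.card * (B.card + 1) := by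
  have h1 : ∀ v, inc B v ^ 2 = ∑ e ∈ B, ∑ f ∈ B, if v ∈ e ∧ v ∈ f then 1 else 0 := by
    intro v
    rw [sq, inc_eq_sum, sum_mul_sum]
    refine sum_congr rfl fun e _ => sum_congr rfl fun f _ => ?_
    by_cases h : v ∈ e <;> by_cases h' : v ∈ f <;> simp [h, h']
  have h2 : ∑ v, inc B v ^ 2 =
      ∑ e ∈ B, ∑ f ∈ B, (univ.filter (fun v : Fin n => v ∈ e ∧ v ∈ f)).card := by
    simp_rw [h1]
    rw [sum_comm]
    refine sum_congr rfl fun e _ => ?_
    rw [sum_comm]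
    refine sum_congr rfl fun f _ => ?_
    rw [← card_filter]
  rw [h2]
  have h3 : ∀ e ∈ B, ∑ f ∈ B, (univ.filter (fun v : Fin n => v ∈ e ∧ v ∈ f)).card
      ≤ B.card + 1 := by
    intro e he
    calc ∑ f ∈ B, (univ.filter (fun v : Fin n => v ∈ e ∧ v ∈ f)).card
        ≤ ∑ f ∈ B, (1 + if f = e then 1 else 0) :=
          sum_le_sum fun f _ => common_le (hB e he)
      _ = B.card + 1 := by
          rw [sum_add_distrib, sum_ite_eq' B e]
          simp [he]
  calc ∑ e ∈ B, ∑ f ∈ B, (univ.filter (fun v : Fin n => v ∈ e ∧ v ∈ f)).card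
      ≤ ∑ _e ∈ B, (B.card + 1) := sum_le_sum h3
    _ = B.card * (B.card + 1) := by simp

theorem inc_le {U B : Finset (Sym2 (Fin n))} (h : B ⊆ U) (v : Fin n) : inc B v ≤ inc U v :=
  card_le_card (filter_subset_filter _ h)

theorem inc_sdiff {U B : Finset (Sym2 (Fin n))} (h : B ⊆ U) (v : Fin n) :
    (inc (U \ B) v : ℝ) = inc U v - inc B v := by
  have h1 : (U \ B).filter (fun e => v ∈ e) =
      U.filter (fun e => v ∈ e) \ B.filter (fun e => v ∈ e) := by
    ext e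
    simp only [mem_filter, mem_sdiff]
    tauto
  have h2 : inc (U \ B) v + inc B v = inc U v := by
    unfold inc
    rw [h1]
    exact card_sdiff_add_card_eq_card (filter_subset_filter _ h)
  rw [← h2]
  push_cast
  ring

theorem inc_insert {C : Finset (Sym2 (Fin n))} {e : Sym2 (Fin n)} (h : e ∉ C) (v : Fin n) :
    (inc (insert e C) v : ℝ) = inc C v + if v ∈ e then 1 else 0 := by
  rw [inc_eq_sum, inc_eq_sum, sum_insert h]
  push_cast
  ring

/-! ### The potential of one vertex -/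

/-- The potential of one vertex. -/
noncomputable def F (al G be z r : ℝ) : ℝ :=
  al * z + G * z ^ 2 + be * z ^ 3 - z ^ 4 - 6 * r * z ^ 2 + (4 + 3 * be) * r * z - 3 * r ^ 2 -
    (1 + be + 3 / 8 * be ^ 2) * r

theorem F_step {al G be z r a : ℝ} (ha0 : 0 ≤ a) (ha1 : a ≤ 1) (har : a ≤ r) :
    F al G be z r + G * (a * (1 - a)) ≤
      (1 - a) * F al G be (z + a) (r - a) + a * F al G be (z + a - 1) (r - a) := by
  have key : (1 - a) * F al G be (z + a) (r - a) + a * F al G be (z + a - 1) (r - a)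
      - (F al G be z r + G * (a * (1 - a))) =
      a * (6 * a * (z - (12 - 8 * a + 3 * be) / 12) ^ 2 + 6 * a * (r - a) +
        3 / 8 * be ^ 2 * (1 - a) + a + 2 * a ^ 2 + a ^ 3 / 3) := by
    unfold F; ring
  have h7 : 0 ≤ a * (6 * a * (z - (12 - 8 * a + 3 * be) / 12) ^ 2 + 6 * a * (r - a) +
        3 / 8 * be ^ 2 * (1 - a) + a + 2 * a ^ 2 + a ^ 3 / 3) := by
    refine mul_nonneg ha0 ?_
    have h8 : 0 ≤ 6 * a * (z - (12 - 8 * a + 3 * be) / 12) ^ 2 := by positivity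
    have h9 : 0 ≤ 6 * a * (r - a) := mul_nonneg (by linarith) (by linarith)
    have h10 : 0 ≤ 3 / 8 * be ^ 2 * (1 - a) := mul_nonneg (by positivity) (by linarith)
    have h11 : 0 ≤ 2 * a ^ 2 + a ^ 3 / 3 := by positivity
    linarith
  linarith

theorem F_le {u c d z r : ℝ} (hr : 0 ≤ r) (hz : z ≤ c) (hcd : c ≤ d) :
    F (u ^ 2 * (c + d) - 2 * u * (c * d)) (2 * u * (c + d) - u ^ 2 - c * d) (c + d - 2 * u) z r ≤
      u ^ 2 * (c * d) := by
  have key : u ^ 2 * (c * d) -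
      F (u ^ 2 * (c + d) - 2 * u * (c * d)) (2 * u * (c + d) - u ^ 2 - c * d) (c + d - 2 * u) z r =
      (z + u) ^ 2 * ((c - z) * (d - z)) +
        r * (6 * (z - (4 + 3 * (c + d - 2 * u)) / 12) ^ 2 + 1 / 3) + 3 * r ^ 2 := by
    unfold F; ring
  have h1 : 0 ≤ (z + u) ^ 2 * ((c - z) * (d - z)) :=
    mul_nonneg (sq_nonneg _) (mul_nonneg (by linarith) (by linarith))
  have h2 : 0 ≤ r * (6 * (z - (4 + 3 * (c + d - 2 * u)) / 12) ^ 2 + 1 / 3) :=
    mul_nonneg hr (by positivity)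
  have h3 : 0 ≤ 3 * r ^ 2 := by positivity
  linarith

/-! ### The potential of a position -/

/-- The deviation of the degree of `v`. -/
noncomputable def zz (b : ℕ) (U C : Finset (Sym2 (Fin n))) (v : Fin n) : ℝ :=
  ((n : ℝ) - 1 - inc U v) / b - inc C v

/-- The remaining weight at `v`. -/
noncomputable def rr (b : ℕ) (U : Finset (Sym2 (Fin n))) (v : Fin n) : ℝ := (inc U v : ℝ) / b

/-- The potential of a position. -/
noncomputable def Xi (b : ℕ) (al G be : ℝ) (U C : Finset (Sym2 (Fin n))) : ℝ :=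
  ∑ v : Fin n, F al G be (zz b U C v) (rr b U v)

theorem sum_round {b : ℕ} (hb : 1 ≤ b) (al G be : ℝ) {U C B : Finset (Sym2 (Fin n))}
    (hUC : Disjoint U C) (hBU : B ⊆ U) (hBb : B.card = b) (v : Fin n) :
    (b : ℝ) * (F al G be (zz b U C v) (rr b U v) +
        G * ((inc B v : ℝ) / b * (1 - (inc B v : ℝ) / b))) ≤
      ∑ e ∈ B, F al G be (zz b (U \ B) (insert e C) v) (rr b (U \ B) v) := by
  have hb' : (0 : ℝ) < b := by exact_mod_cast hb
  set z := zz b U C v with hz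
  set r := rr b U v with hr
  set a : ℝ := (inc B v : ℝ) / b with ha
  have ha0 : 0 ≤ a := by positivity
  have ha1 : a ≤ 1 := by
    rw [ha, div_le_one hb']
    have : inc B v ≤ b := by
      rw [← hBb]
      exact card_filter_le _ _
    exact_mod_cast this
  have har : a ≤ r := by
    rw [ha, hr]
    unfold rr
    refine div_le_div_of_nonneg_right ?_ hb'.le
    exact_mod_cast inc_le hBU v
  have hr' : rr b (U \ B) v = r - a := by
    unfold rr
    rw [inc_sdiff hBU, hr, ha]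
    unfold rr
    ring
  have hz' : ∀ e ∈ B, zz b (U \ B) (insert e C) v = z + a - if v ∈ e then 1 else 0 := by
    intro e he
    have heC : e ∉ C := fun h => (Finset.disjoint_left.1 hUC) (hBU he) h
    unfold zz
    rw [inc_sdiff hBU, inc_insert heC, hz, ha]
    unfold zz
    ring
  have hsum : ∑ e ∈ B, F al G be (zz b (U \ B) (insert e C) v) (rr b (U \ B) v) =
      b * ((1 - a) * F al G be (z + a) (r - a) + a * F al G be (z + a - 1) (r - a)) := by
    have h1 : ∀ e ∈ B, F al G be (zz b (U \ B) (insert e C) v) (rr b (U \ B) v) =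
        F al G be (z + a) (r - a) +
          (if v ∈ e then (1 : ℝ) else 0) * (F al G be (z + a - 1) (r - a) - F al G be (z + a) (r - a)) := by
      intro e he
      rw [hz' e he, hr']
      by_cases h : v ∈ e
      · simp only [if_pos h]; ring
      · simp only [if_neg h, sub_zero]; ring
    rw [sum_congr rfl h1, sum_add_distrib, ← sum_mul]
    have h2 : ∑ e ∈ B, (if v ∈ e then (1 : ℝ) else 0) = b * a := by
      have h3 : ((inc B v : ℕ) : ℝ) = ∑ e ∈ B, (if v ∈ e then (1 : ℝ) else 0) := by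
        rw [inc_eq_sum]
        push_cast
        rfl
      rw [← h3, ha]
      field_simp
    rw [h2, sum_const, hBb, nsmul_eq_mul]
    ring
  rw [hsum]
  exact mul_le_mul_of_nonneg_left (F_step ha0 ha1 har) hb'.le

theorem sum_var {b : ℕ} (hb : 1 ≤ b) {B : Finset (Sym2 (Fin n))} (hB : ∀ e ∈ B, ¬ e.IsDiag)
    (hBb : B.card = b) :
    (1 : ℝ) - 1 / b ≤ ∑ v, (inc B v : ℝ) / b * (1 - (inc B v : ℝ) / b) := by
  have hb' : (0 : ℝ) < b := by exact_mod_cast hb
  have h1 : (∑ v, (inc B v : ℝ)) = 2 * b := by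
    have := sum_inc hB
    rw [hBb] at this
    exact_mod_cast this
  have h2 : (∑ v, (inc B v : ℝ) ^ 2) ≤ b * (b + 1) := by
    have := sum_inc_sq hB
    rw [hBb] at this
    exact_mod_cast this
  have h3 : ∑ v, (inc B v : ℝ) / b * (1 - (inc B v : ℝ) / b) =
      (∑ v, (inc B v : ℝ)) / b - (∑ v, (inc B v : ℝ) ^ 2) / b ^ 2 := by
    rw [sum_div, sum_div, ← sum_sub_distrib]
    refine sum_congr rfl fun v _ => ?_
    field_simp
  rw [h3, h1]
  have h4 : (∑ v, (inc B v : ℝ) ^ 2) / b ^ 2 ≤ (b * (b + 1)) / (b : ℝ) ^ 2 :=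
    div_le_div_of_nonneg_right h2 (by positivity)
  have h5 : (b * (b + 1)) / (b : ℝ) ^ 2 = 1 + 1 / b := by
    field_simp
  have h6 : (2 * (b : ℝ)) / b = 2 := by field_simp
  rw [h6]
  linarith

theorem step {b : ℕ} (hb : 1 ≤ b) {al G be : ℝ} (hG : 0 ≤ G) {U C B : Finset (Sym2 (Fin n))}
    (hU : ∀ e ∈ U, ¬ e.IsDiag) (hUC : Disjoint U C) (hBU : B ⊆ U) (hBb : B.card = b) :
    ∃ e ∈ B, Xi b al G be U C + G * (1 - 1 / b) ≤ Xi b al G be (U \ B) (insert e C) := by
  have hb' : (0 : ℝ) < b := by exact_mod_cast hb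
  have hne : B.Nonempty := by
    rw [← card_pos]
    omega
  refine exists_le_of_sum_le hne ?_
  have hdiag : ∀ e ∈ B, ¬ e.IsDiag := fun e he => hU e (hBU he)
  have h1 : ∑ e ∈ B, Xi b al G be (U \ B) (insert e C) =
      ∑ v : Fin n, ∑ e ∈ B, F al G be (zz b (U \ B) (insert e C) v) (rr b (U \ B) v) := by
    unfold Xi
    rw [sum_comm]
  have h2 : ∑ v : Fin n, (b : ℝ) * (F al G be (zz b U C v) (rr b U v) +
        G * ((inc B v : ℝ) / b * (1 - (inc B v : ℝ) / b))) ≤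
      ∑ v : Fin n, ∑ e ∈ B, F al G be (zz b (U \ B) (insert e C) v) (rr b (U \ B) v) :=
    sum_le_sum fun v _ => sum_round hb al G be hUC hBU hBb v
  have h3 : ∑ v : Fin n, (b : ℝ) * (F al G be (zz b U C v) (rr b U v) +
        G * ((inc B v : ℝ) / b * (1 - (inc B v : ℝ) / b))) =
      b * (Xi b al G be U C +
        G * ∑ v, (inc B v : ℝ) / b * (1 - (inc B v : ℝ) / b)) := by
    rw [← mul_sum, sum_add_distrib, ← mul_sum]
    rfl
  rw [h1]
  refine le_trans ?_ h2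
  rw [h3, sum_const, hBb, nsmul_eq_mul]
  refine mul_le_mul_of_nonneg_left ?_ hb'.le
  have := mul_le_mul_of_nonneg_left (sum_var hb hdiag hBb) hG
  linarith

theorem minDeg_inc {k : ℕ} {C : Finset (Sym2 (Fin n))} (h : MinDeg k (gr C)) (v : Fin n) :
    k ≤ inc C v := by
  refine (h v).trans ?_
  unfold inc
  rw [← Set.ncard_coe_finset]
  refine Set.ncard_le_ncard_of_injOn (fun w => s(v, w)) ?_ ?_ (Set.toFinite _)
  · intro w hw
    simp only [SimpleGraph.mem_neighborSet, gr, SimpleGraph.fromEdgeSet_adj] at hw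
    simp only [coe_filter, Set.mem_ofPred_eq, Sym2.mem_iff, true_or, and_true]
    exact_mod_cast hw.1
  · intro w _ w' _ hww
    exact Sym2.congr_right.1 hww

theorem main_ind {b k : ℕ} (hb : 1 ≤ b) {al G be c M : ℝ} (hG : 0 ≤ G)
    (hM : ∀ z r : ℝ, 0 ≤ r → z ≤ c → F al G be z r ≤ M)
    (hκ : ((n : ℝ) - 1) / b - k ≤ c) {U C : Finset (Sym2 (Fin n))}
    (h : Win b (fun C => MinDeg k (gr C)) U C) :
    (∀ e ∈ U, ¬ e.IsDiag) → Disjoint U C →
    Xi b al G be U C + G * (1 - 1 / b) * ((U.card : ℝ) / b - 1) ≤ n * M := by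
  have hb' : (0 : ℝ) < b := by exact_mod_cast hb
  have hb1 : (1 : ℝ) ≤ b := by exact_mod_cast hb
  have hθ : (0 : ℝ) ≤ 1 - 1 / b := by
    rw [sub_nonneg, div_le_one hb']
    exact hb1
  induction h with
  | @stop U C h1 h2 =>
    intro _ _
    have h3 : Xi b al G be U C ≤ ∑ _v : Fin n, M := by
      refine sum_le_sum fun v _ => hM _ _ (by unfold rr; positivity) ?_
      have h4 : (k : ℝ) ≤ inc C v := by exact_mod_cast minDeg_inc h2 v
      have h5 : ((n : ℝ) - 1 - inc U v) / b ≤ ((n : ℝ) - 1) / b := by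
        refine div_le_div_of_nonneg_right ?_ hb'.le
        have : (0 : ℝ) ≤ inc U v := Nat.cast_nonneg _
        linarith
      unfold zz
      linarith
    have h6 : ∑ _v : Fin n, M = n * M := by
      rw [sum_const, card_univ, Fintype.card_fin, nsmul_eq_mul]
    have h7 : (U.card : ℝ) / b - 1 ≤ 0 := by
      rw [sub_nonpos, div_le_one hb']
      exact_mod_cast h1.le
    have h8 : G * (1 - 1 / b) * ((U.card : ℝ) / b - 1) ≤ 0 :=
      mul_nonpos_of_nonneg_of_nonpos (mul_nonneg hG hθ) h7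
    linarith
  | @play U C B hBU hBb _ ih =>
    intro hU hUC
    obtain ⟨e, he, hstep⟩ := step (al := al) (be := be) hb hG hU hUC hBU hBb
    have hU' : ∀ f ∈ U \ B, ¬ f.IsDiag := fun f hf => hU f (mem_sdiff.1 hf).1
    have hUC' : Disjoint (U \ B) (insert e C) := by
      rw [Finset.disjoint_insert_right]
      exact ⟨fun h => (mem_sdiff.1 h).2 he, hUC.mono_left sdiff_subset⟩
    have h1 := ih e he hU' hUC'
    have h2 : ((U \ B).card : ℝ) = U.card - b := by
      have h3 : (U \ B).card + B.card = U.card := card_sdiff_add_card_eq_card hBU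
      rw [hBb] at h3
      rw [← h3]
      push_cast
      ring
    rw [h2] at h1
    have h4 : ((U.card : ℝ) - b) / b = (U.card : ℝ) / b - 1 := by
      field_simp
    rw [h4] at h1
    have h5 : G * (1 - 1 / (b : ℝ)) * ((U.card : ℝ) / b - 1) =
        G * (1 - 1 / (b : ℝ)) * ((U.card : ℝ) / b - 1 - 1) + G * (1 - 1 / (b : ℝ)) := by ring
    linarith

theorem inc_board (v : Fin n) : (inc (board n) v : ℝ) = n - 1 := by
  have h1 : inc (board n) v = (univ.erase v : Finset (Fin n)).card := by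
    unfold inc
    symm
    refine card_bij (fun w _ => s(v, w)) ?_ ?_ ?_
    · intro w hw
      have : w ≠ v := (mem_erase.1 hw).1
      simp [board, this.symm]
    · intro w _ w' _ h
      exact Sym2.congr_right.1 h
    · intro e he
      simp only [board, mem_filter, mem_univ, true_and] at he
      obtain ⟨h1, h2⟩ := he
      obtain ⟨w, rfl⟩ := Sym2.mem_iff_exists.1 h2
      refine ⟨w, ?_, rfl⟩
      rw [mem_erase]
      refine ⟨?_, mem_univ _⟩
      rintro rfl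
      simp at h1
  have hv : 0 < n := lt_of_le_of_lt (Nat.zero_le _) v.isLt
  rw [h1, card_erase_of_mem (mem_univ _), card_univ, Fintype.card_fin, Nat.cast_sub (by omega)]
  simp

theorem card_board : ((board n).card : ℝ) = n * (n - 1) / 2 := by
  have h1 : ∀ e ∈ board n, ¬ e.IsDiag := fun e he => (mem_filter.1 he).2
  have h2 := sum_inc h1
  have h3 : (∑ v : Fin n, (inc (board n) v : ℝ)) = 2 * (board n).card := by exact_mod_cast h2
  simp_rw [inc_board] at h3
  rw [sum_const, card_univ, Fintype.card_fin, nsmul_eq_mul] at h3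
  linarith

/-- The inequality for the whole game. -/
theorem game_ineq {b k : ℕ} (hb : 1 ≤ b) {al G be c M : ℝ} (hG : 0 ≤ G)
    (hM : ∀ z r : ℝ, 0 ≤ r → z ≤ c → F al G be z r ≤ M)
    (hκ : ((n : ℝ) - 1) / b - k ≤ c)
    (h : Win b (fun C => MinDeg k (gr C)) (board n) ∅) :
    G * (1 - 1 / b) * (n * (((n : ℝ) - 1) / b) / 2 - 1) ≤
      n * (3 * (((n : ℝ) - 1) / b) ^ 2 + (1 + be + 3 / 8 * be ^ 2) * (((n : ℝ) - 1) / b)) +
        n * M := by
  have h1 := main_ind hb hG hM hκ h (fun e he => (mem_filter.1 he).2) (disjoint_empty_right _)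
  rw [card_board] at h1
  have h2 : Xi b al G be (board n) ∅ =
      -(n * (3 * (((n : ℝ) - 1) / b) ^ 2 +
        (1 + be + 3 / 8 * be ^ 2) * (((n : ℝ) - 1) / b))) := by
    have h3 : ∀ v : Fin n, F al G be (zz b (board n) ∅ v) (rr b (board n) v) =
        -(3 * (((n : ℝ) - 1) / b) ^ 2 +
          (1 + be + 3 / 8 * be ^ 2) * (((n : ℝ) - 1) / b)) := by
      intro v
      unfold zz rr F
      rw [inc_board]
      simp only [inc, filter_empty, card_empty, Nat.cast_zero]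
      ring
    unfold Xi
    rw [sum_congr rfl fun v _ => h3 v, sum_const, card_univ, Fintype.card_fin, nsmul_eq_mul]
    ring
  rw [h2] at h1
  have h4 : (n : ℝ) * (n - 1) / 2 / b - 1 = n * (((n : ℝ) - 1) / b) / 2 - 1 := by ring
  rw [h4] at h1
  linarith

/-- `k b ≤ n - 1`. -/
theorem kb_le {k n q : ℕ} (hk : 1 ≤ k) (hn : 2 ≤ n) (hq : 0 < q)
    (h : Win (q + 1) (fun C => MinDeg k (gr C)) (board n) ∅) : (q + 1) * k ≤ n - 1 := by
  have h1 := upper (b := q + 1) (u := 2) (by omega) hk le_rfl hn (by omega) h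
  have h2 : (q + 1) * k * n ≤ n * (n - 1) := by
    have : (2 - 2) * (q + 1 + 1 - 2) = 0 := by simp
    omega
  have : n * ((q + 1) * k) ≤ n * (n - 1) := by
    calc n * ((q + 1) * k) = (q + 1) * k * n := by ring
      _ ≤ n * (n - 1) := h2
  exact Nat.le_of_mul_le_mul_left this (by omega)

/-- The inequality of the game fails when `x < k + √k / 5`. -/
theorem numeric {s y θ N G be M : ℝ} (hs : 2 ≤ s ^ 2) (hs0 : 0 ≤ s) (hy0 : 0 ≤ y)
    (hy : 5 * y ≤ s) (hN : 200 * s ^ 2 ≤ N) (hθ : 1 - (s ^ 2 + y) / (N - 1) ≤ θ) (hθ1 : θ ≤ 1)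
    (hG : G = 2 * (14 / 5 * s) * (y + 31 / 5 * s) - (14 / 5 * s) ^ 2 - y * (31 / 5 * s))
    (hbe : be = y + 31 / 5 * s - 2 * (14 / 5 * s))
    (hM : M = (14 / 5 * s) ^ 2 * (y * (31 / 5 * s)))
    (h : G * θ * (N * (s ^ 2 + y) / 2 - 1) ≤
      N * (3 * (s ^ 2 + y) ^ 2 + (1 + be + 3 / 8 * be ^ 2) * (s ^ 2 + y)) + N * M) : False := by
  have hs1 : 1.414 ≤ s := by nlinarith
  have hys : y ≤ s / 5 := by linarith
  set x := s ^ 2 + y with hx
  have hx0 : 0 < x := by positivity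
  have hG' : G = 26.88 * s ^ 2 - 0.6 * s * y := by rw [hG]; ring
  have hbe' : be = y + 0.6 * s := by rw [hbe]; ring
  have hM' : M = 48.608 * s ^ 3 * y := by rw [hM]; ring
  have hGle : G ≤ 26.88 * s ^ 2 := by
    rw [hG']
    have : 0 ≤ 0.6 * s * y := by positivity
    linarith
  have hG0 : 0 ≤ G := by
    rw [hG']
    nlinarith [mul_nonneg hs0 hy0]
  have hNpos : 0 < N := by nlinarith
  have hN1 : 199 * s ^ 2 ≤ N - 1 := by nlinarith
  have hN1pos : 0 < N - 1 := by nlinarith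
  have hθ0 : 0 ≤ θ := by
    refine le_trans ?_ hθ
    rw [sub_nonneg, div_le_one hN1pos]
    nlinarith
  -- the error terms
  have e1 : G * x ^ 2 / (2 * (N - 1)) ≤ 0.0676 * x ^ 2 := by
    rw [div_le_iff₀ (by positivity)]
    have h1 : G * x ^ 2 ≤ 26.88 * s ^ 2 * x ^ 2 := mul_le_mul_of_nonneg_right hGle (by positivity)
    have h2 : 0.0676 * x ^ 2 * (2 * (199 * s ^ 2)) ≤ 0.0676 * x ^ 2 * (2 * (N - 1)) :=
      mul_le_mul_of_nonneg_left (by linarith) (by positivity)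
    have h3 : 26.88 * s ^ 2 * x ^ 2 ≤ 0.0676 * x ^ 2 * (2 * (199 * s ^ 2)) := by
      have : 0 ≤ s ^ 2 * x ^ 2 := by positivity
      nlinarith
    linarith
  have e2 : G ≤ 0.1344 * N := by nlinarith
  have e3 : G * x / 2 - G * x ^ 2 / (2 * (N - 1)) ≤ G * θ * x / 2 := by
    have h1 : G * x / 2 * (1 - x / (N - 1)) ≤ G * x / 2 * θ :=
      mul_le_mul_of_nonneg_left hθ (by positivity)
    have h2 : G * x / 2 * (1 - x / (N - 1)) = G * x / 2 - G * x ^ 2 / (2 * (N - 1)) := by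
      field_simp
    rw [h2] at h1
    linarith
  have e4 : N * (G * θ * x / 2) - G ≤ G * θ * (N * x / 2 - 1) := by
    have : G * θ ≤ G * 1 := mul_le_mul_of_nonneg_left hθ1 hG0
    nlinarith
  have e5 : N * (G * θ * x / 2 - 3 * x ^ 2 - (1 + be + 3 / 8 * be ^ 2) * x - M - 0.1344) ≤ 0 := by
    nlinarith
  have e6 : G * θ * x / 2 - 3 * x ^ 2 - (1 + be + 3 / 8 * be ^ 2) * x - M - 0.1344 ≤ 0 := by
    by_contra hc
    push Not at hc
    have := mul_pos hNpos hc
    linarith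
  have e7 : G * x / 2 - 3.0676 * x ^ 2 - (1 + be + 3 / 8 * be ^ 2) * x - M - 0.1344 ≤ 0 := by
    linarith
  rw [hG', hbe', hM', hx] at e7
  -- the polynomial in `s`, `y`
  have p1 : y ^ 2 ≤ s / 5 * y := by nlinarith
  have p2 : y ^ 3 ≤ (s / 5) ^ 2 * y := by
    have : y ^ 3 = y ^ 2 * y := by ring
    rw [this]
    refine mul_le_mul_of_nonneg_right ?_ hy0
    nlinarith
  have q0 : 0 < 10.2374 * s ^ 4 - 0.6 * s ^ 3 - s ^ 2 - 0.1344 := by
    have h1 : s ^ 3 ≤ s ^ 4 := by nlinarith [pow_nonneg hs0 3]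
    have h2 : s ^ 2 ≤ s ^ 4 := by nlinarith
    nlinarith
  have q1 : 0 < 0.3508 * s ^ 4 + 0.6009 * s ^ 3 - 1.2829 * s ^ 2 - 0.2 * s - 0.1344 := by
    have h1 : 2 * s ^ 2 ≤ s ^ 4 := by nlinarith
    have h2 : 1.414 * s ^ 2 ≤ s ^ 3 := by nlinarith
    nlinarith
  have key : (26.88 * s ^ 2 - 0.6 * s * y) * (s ^ 2 + y) / 2 - 3.0676 * (s ^ 2 + y) ^ 2 -
      (1 + (y + 0.6 * s) + 3 / 8 * (y + 0.6 * s) ^ 2) * (s ^ 2 + y) - 48.608 * s ^ 3 * y - 0.1344 =
      (10.2374 * s ^ 4 - 0.6 * s ^ 3 - s ^ 2 - 0.1344) + (6.1698 * s ^ 2 - 49.358 * s ^ 3 - 0.6 * s - 1) * y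
        - (0.375 * s ^ 2 + 0.75 * s + 4.0676) * y ^ 2 - 0.375 * y ^ 3 := by ring
  rw [key] at e7
  -- replace `y²`, `y³`
  have r1 : (0.375 * s ^ 2 + 0.75 * s + 4.0676) * y ^ 2 ≤
      (0.375 * s ^ 2 + 0.75 * s + 4.0676) * (s / 5 * y) :=
    mul_le_mul_of_nonneg_left p1 (by positivity)
  have r2 : (10.2374 * s ^ 4 - 0.6 * s ^ 3 - s ^ 2 - 0.1344) * (s / 5) +
      ((6.1698 * s ^ 2 - 49.358 * s ^ 3 - 0.6 * s - 1) * y
        - (0.375 * s ^ 2 + 0.75 * s + 4.0676) * (s / 5 * y) - 0.375 * ((s / 5) ^ 2 * y)) * (s / 5)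
      = (10.2374 * s ^ 4 - 0.6 * s ^ 3 - s ^ 2 - 0.1344) * (s / 5 - y) +
        (s / 5 * (6.1698 * s ^ 2 - 49.358 * s ^ 3 - 0.6 * s - 1)
        - (0.375 * s ^ 2 + 0.75 * s + 4.0676) * (s / 5) ^ 2 - 0.375 * (s / 5) ^ 3 +
        (10.2374 * s ^ 4 - 0.6 * s ^ 3 - s ^ 2 - 0.1344)) * y := by ring
  have r3 : s / 5 * (6.1698 * s ^ 2 - 49.358 * s ^ 3 - 0.6 * s - 1)
        - (0.375 * s ^ 2 + 0.75 * s + 4.0676) * (s / 5) ^ 2 - 0.375 * (s / 5) ^ 3 +
        (10.2374 * s ^ 4 - 0.6 * s ^ 3 - s ^ 2 - 0.1344) =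
      0.3508 * s ^ 4 + 0.60096 * s ^ 3 - 1.282704 * s ^ 2 - 0.2 * s - 0.1344 := by ring
  have r4 : 0 < (10.2374 * s ^ 4 - 0.6 * s ^ 3 - s ^ 2 - 0.1344) * (s / 5) +
      ((6.1698 * s ^ 2 - 49.358 * s ^ 3 - 0.6 * s - 1) * y
        - (0.375 * s ^ 2 + 0.75 * s + 4.0676) * (s / 5 * y) - 0.375 * ((s / 5) ^ 2 * y)) * (s / 5) := by
    rw [r2, r3]
    have h1 : 0 ≤ (10.2374 * s ^ 4 - 0.6 * s ^ 3 - s ^ 2 - 0.1344) * (s / 5 - y) :=
      mul_nonneg q0.le (by linarith)
    have h2 : 0 < 0.3508 * s ^ 4 + 0.60096 * s ^ 3 - 1.282704 * s ^ 2 - 0.2 * s - 0.1344 := by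
      have : 0 ≤ s ^ 3 := by positivity
      nlinarith [sq_nonneg s]
    rcases hy0.eq_or_lt with h3 | h3
    · rw [← h3]
      have : 0 < (10.2374 * s ^ 4 - 0.6 * s ^ 3 - s ^ 2 - 0.1344) * (s / 5 - 0) :=
        mul_pos q0 (by linarith)
      linarith
    · have := mul_pos h2 h3
      linarith
  have hs5 : 0 < s / 5 := by linarith
  have r5 : 0 < (10.2374 * s ^ 4 - 0.6 * s ^ 3 - s ^ 2 - 0.1344) +
      ((6.1698 * s ^ 2 - 49.358 * s ^ 3 - 0.6 * s - 1) * y
        - (0.375 * s ^ 2 + 0.75 * s + 4.0676) * (s / 5 * y) - 0.375 * ((s / 5) ^ 2 * y)) := by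
    by_contra hc
    push Not at hc
    have := mul_nonpos_of_nonpos_of_nonneg hc hs5.le
    linarith
  linarith

/-- The upper bound. -/
theorem sqrt_gap {k n : ℕ} (hk : 1 ≤ k) (hn : 200 * k ≤ n) :
    (qD k n : ℝ) ≤ n / (k + √(k : ℝ) / 5) := by
  have hk' : (1 : ℝ) ≤ k := by exact_mod_cast hk
  have hn' : 200 * (k : ℝ) ≤ n := by exact_mod_cast hn
  have hs0 : 0 ≤ √(k : ℝ) := Real.sqrt_nonneg _
  have hss : √(k : ℝ) ^ 2 = k := Real.sq_sqrt (by positivity)
  have hD : 0 < (k : ℝ) + √(k : ℝ) / 5 := by positivity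
  rcases (show k = 1 ∨ 2 ≤ k by omega) with h1 | hk2
  · -- `k = 1`
    subst h1
    refine (upper_real (k := 1) (n := n) le_rfl (by omega)).trans ?_
    have h2 : (1.4 : ℝ) ≤ √(((1 : ℕ) : ℝ) ^ 2 + 1) := by
      refine Real.le_sqrt_of_sq_le ?_
      norm_num
    have h3 : √((1 : ℕ) : ℝ) = 1 := by simp
    rw [h3]
    have h4 : (0 : ℝ) ≤ n := Nat.cast_nonneg _
    rw [div_le_div_iff₀ (by positivity) (by positivity)]
    push_cast
    nlinarith
  have hk2' : (2 : ℝ) ≤ k := by exact_mod_cast hk2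
  rcases qD_spec (k := k) (n := n) (by omega) (by omega) with h | ⟨hq, hwin⟩
  · rw [h]
    simp only [Nat.cast_zero]
    positivity
  by_contra hcon
  push Not at hcon
  rw [div_lt_iff₀ hD] at hcon
  set q := qD k n with hqdef
  have hkb := kb_le (k := k) (n := n) (by omega) (by omega) hq hwin
  have hb0 : (0 : ℝ) < ((q + 1 : ℕ) : ℝ) := by positivity
  have hkb' : ((q + 1 : ℕ) : ℝ) * k ≤ n - 1 := by
    have h1 : (((q + 1) * k : ℕ) : ℝ) ≤ ((n - 1 : ℕ) : ℝ) := by exact_mod_cast hkb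
    rw [Nat.cast_sub (by omega)] at h1
    push_cast at h1 ⊢
    exact h1
  have hx1 : (k : ℝ) ≤ ((n : ℝ) - 1) / ((q + 1 : ℕ) : ℝ) := by
    rw [le_div_iff₀ hb0]
    linarith
  have hx2 : ((n : ℝ) - 1) / ((q + 1 : ℕ) : ℝ) < k + √(k : ℝ) / 5 := by
    rw [div_lt_iff₀ hb0]
    push_cast
    nlinarith
  set s := √(k : ℝ) with hs
  set x : ℝ := ((n : ℝ) - 1) / ((q + 1 : ℕ) : ℝ) with hx
  set y : ℝ := x - k with hy
  have hy0 : 0 ≤ y := by linarith
  have hys : 5 * y ≤ s := by linarith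
  have hxy : s ^ 2 + y = x := by rw [hss, hy]; ring
  have hG0 : 0 ≤ 2 * (14 / 5 * s) * (y + 31 / 5 * s) - (14 / 5 * s) ^ 2 - y * (31 / 5 * s) := by
    have : 2 * (14 / 5 * s) * (y + 31 / 5 * s) - (14 / 5 * s) ^ 2 - y * (31 / 5 * s) =
        26.88 * s ^ 2 - 0.6 * (s * y) := by ring
    rw [this]
    nlinarith [mul_nonneg hs0 hy0]
  have hgame := game_ineq (b := q + 1) (k := k) (n := n) (by omega) hG0
    (fun z r hr hz => F_le (u := 14 / 5 * s) (c := y) (d := 31 / 5 * s) hr hz (by linarith))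
    (by rw [← hx]) hwin
  rw [← hx, ← hxy] at hgame
  refine numeric (s := s) (y := y) (θ := 1 - 1 / ((q + 1 : ℕ) : ℝ)) (N := n)
    (by rw [hss]; exact hk2') hs0 hy0 hys (by rw [hss]; exact hn') ?_ ?_ rfl rfl rfl hgame
  · have hn1 : (0 : ℝ) < n - 1 := by linarith
    have : (s ^ 2 + y) / ((n : ℝ) - 1) = 1 / ((q + 1 : ℕ) : ℝ) := by
      rw [hxy, hx]
      field_simp
    rw [this]
  · have : 0 ≤ 1 / ((q + 1 : ℕ) : ℝ) := by positivity
    linarith

end Pool.Agent.Helper40.WC
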